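import Pool.Agent.K1H77.CG.Stm

/-! # CG16: permutations of the edge-ends over a permutation of the vertices -/

set_option autoImplicit false

open Finset

namespace Pool.Agent.K1H95.CG

open Pool.Agent.K1H77.CG

variable {n : ℕ}

open Classical in
/-- fixed vertices with a moved edge-end -/
noncomputable def TT (π : Equiv.Perm (Fin n)) (σ : Equiv.Perm (HE n)) : Finset (Fin n) :=
  univ.filter (fun v => π v = v ∧ ∃ i, σ (v, i) ≠ (v, i))

lemma mem_TT {π : Equiv.Perm (Fin n)} {σ : Equiv.Perm (HE n)} {v : Fin n} :
    v ∈ TT π σ ↔ π v = v ∧ ∃ i, σ (v, i) ≠ (v, i) := by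
  simp [TT]

lemma tch_eq (π : Equiv.Perm (Fin n)) (σ : Equiv.Perm (HE n)) : tch π σ = (TT π σ).card := by
  unfold tch TT
  congr

lemma supp_card (σ : Equiv.Perm (HE n)) :
    σ.support.card = ∑ v : Fin n, (univ.filter (fun i : Fin 3 => σ (v, i) ≠ (v, i))).card := by
  have h1 : σ.support = univ.filter (fun h => σ h ≠ h) := by
    ext h
    simp
  rw [h1, card_filter, Fintype.sum_prod_type]
  refine sum_congr rfl fun v _ => ?_
  rw [card_filter]

lemma pow_over {π : Equiv.Perm (Fin n)} {σ : Equiv.Perm (HE n)} (hσ : ∀ h, (σ h).1 = π h.1) (k : ℕ)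
    (h : HE n) : ((σ ^ k) h).1 = (π ^ k) h.1 := by
  induction k generalizing h with
  | zero => simp
  | succ k ih =>
    rw [pow_succ, pow_succ, Equiv.Perm.mul_apply, Equiv.Perm.mul_apply, ih, hσ]

theorem t_GAM : S_GAM := by
  intro n π σ hσ
  rw [tch_eq]
  have hs : π.support.card = ∑ v : Fin n, if π v ≠ v then 1 else 0 := by
    rw [← card_filter]
    congr 1
  have ht : (TT π σ).card = ∑ v : Fin n, if v ∈ TT π σ then 1 else 0 := by
    rw [← card_filter]
    simp
  have hfull : ∀ v, π v ≠ v → (univ.filter (fun i : Fin 3 => σ (v, i) ≠ (v, i))).card = 3 := by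
    intro v hv
    have h1 : univ.filter (fun i : Fin 3 => σ (v, i) ≠ (v, i)) = univ := by
      apply filter_true_of_mem
      intro i _ e
      apply hv
      rw [← hσ (v, i), e]
    rw [h1]
    simp
  have hle : ∀ v, (univ.filter (fun i : Fin 3 => σ (v, i) ≠ (v, i))).card ≤ 3 := by
    intro v
    refine (card_le_univ _).trans ?_
    simp
  have hzero : ∀ v, π v = v → v ∉ TT π σ →
      (univ.filter (fun i : Fin 3 => σ (v, i) ≠ (v, i))).card = 0 := by
    intro v hv hv'
    rw [card_eq_zero, filter_eq_empty_iff]
    intro i _ e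
    exact hv' (mem_TT.2 ⟨hv, i, e⟩)
  have htwo : ∀ v, v ∈ TT π σ →
      2 ≤ (univ.filter (fun i : Fin 3 => σ (v, i) ≠ (v, i))).card := by
    intro v hv
    obtain ⟨h1, i, hi⟩ := mem_TT.1 hv
    have h2 : (σ (v, i)).1 = v := (hσ _).trans h1
    have h3 : σ (v, i) = (v, (σ (v, i)).2) := Prod.ext h2 rfl
    have h4 : (σ (v, i)).2 ≠ i := by
      intro e
      apply hi
      rw [h3, e]
    have h5 : σ (v, (σ (v, i)).2) ≠ (v, (σ (v, i)).2) := by
      rw [← h3]
      intro e
      exact hi (σ.injective e)
    have h6 : ({i, (σ (v, i)).2} : Finset (Fin 3)) ⊆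
        univ.filter (fun i : Fin 3 => σ (v, i) ≠ (v, i)) := by
      intro j hj
      rw [mem_insert, mem_singleton] at hj
      rw [mem_filter]
      rcases hj with rfl | rfl
      · exact ⟨mem_univ _, hi⟩
      · exact ⟨mem_univ _, h5⟩
    have h7 := card_le_card h6
    rw [card_pair h4.symm] at h7
    exact h7
  refine ⟨?_, ?_, ?_⟩
  · rw [supp_card, hs, ht, mul_sum, mul_sum, ← sum_add_distrib]
    apply sum_le_sum
    intro v _
    by_cases h1 : π v = v
    · by_cases h2 : v ∈ TT π σ
      · have := htwo v h2
        simpa [h1, h2] using this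
      · simp [h1, h2]
    · have h2 : v ∉ TT π σ := fun h => h1 (mem_TT.1 h).1
      rw [hfull v h1]
      simp [h1, h2]
  · rw [supp_card, hs, ht, mul_sum, mul_sum, ← sum_add_distrib]
    apply sum_le_sum
    intro v _
    by_cases h1 : π v = v
    · by_cases h2 : v ∈ TT π σ
      · simpa [h1, h2] using hle v
      · rw [hzero v h1 h2]
        simp
    · have := hle v
      have h2 : v ∉ TT π σ := fun h => h1 (mem_TT.1 h).1
      simpa [h1, h2] using this
  · -- representatives
    classical
    have hcard : ∀ {α : Type} [Fintype α] [DecidableEq α] (ρ : Equiv.Perm α),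
        ρ.cycleType.card = ρ.cycleFactorsFinset.card := by
      intro α _ _ ρ
      rw [Equiv.Perm.cycleType_def, Multiset.card_map]
      rfl
    rw [hcard, hcard]
    let B : Finset (Fin n) := π.cycleFactorsFinset.biUnion
      (fun d => if h : d.support.Nonempty then {h.choose} else ∅)
    have hB : B.card ≤ π.cycleFactorsFinset.card := by
      refine card_biUnion_le.trans ?_
      rw [card_eq_sum_ones]
      apply sum_le_sum
      intro d _
      split_ifs <;> simp
    let T' : Finset (HE n) := (TT π σ).biUnion
      (fun v => if h : ∃ i, σ (v, i) ≠ (v, i) then {(v, h.choose)} else ∅)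
    have hT' : T'.card ≤ (TT π σ).card := by
      refine card_biUnion_le.trans ?_
      rw [card_eq_sum_ones]
      apply sum_le_sum
      intro d _
      split_ifs <;> simp
    let X : Finset (HE n) := (B ×ˢ univ) ∪ T'
    have hX : X.card ≤ 3 * π.cycleFactorsFinset.card + (TT π σ).card := by
      refine (card_union_le _ _).trans ?_
      rw [card_product]
      simp only [card_univ, Fintype.card_fin]
      omega
    have hmeet : ∀ c ∈ σ.cycleFactorsFinset, ∃ x ∈ X, x ∈ c.support := by
      intro c hc
      obtain ⟨hcyc, hcσ⟩ := Equiv.Perm.mem_cycleFactorsFinset_iff.1 hc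
      obtain ⟨h, hh⟩ := hcyc.nonempty_support
      have hstep : ∀ y ∈ c.support, σ y ∈ c.support := by
        intro y hy
        rw [← hcσ y hy]
        exact Equiv.Perm.apply_mem_support.2 hy
      have hback : ∀ y, σ y ∈ c.support → y ∈ c.support := by
        intro y hy
        have h1 : c.symm (σ y) ∈ c.support := by
          rw [← Equiv.Perm.apply_mem_support, Equiv.apply_symm_apply]
          exact hy
        have h2 := hcσ _ h1
        rw [Equiv.apply_symm_apply] at h2
        rw [σ.injective h2]
        exact h1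
      have hpow : ∀ k : ℕ, (σ ^ k) h ∈ c.support := by
        intro k
        induction k with
        | zero => simpa using hh
        | succ k ih =>
          rw [pow_succ', Equiv.Perm.mul_apply]
          exact hstep _ ih
      by_cases h1 : π h.1 = h.1
      · have hne : σ h ≠ h := by
          rw [← hcσ h hh]
          exact Equiv.Perm.mem_support.1 hh
        have hex : ∃ i, σ (h.1, i) ≠ (h.1, i) := ⟨h.2, hne⟩
        have hT : h.1 ∈ TT π σ := mem_TT.2 ⟨h1, hex⟩
        refine ⟨(h.1, hex.choose), ?_, ?_⟩
        · apply mem_union_right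
          rw [mem_biUnion]
          refine ⟨h.1, hT, ?_⟩
          rw [dif_pos hex]
          exact mem_singleton_self _
        · by_contra hnot
          have hsp := hex.choose_spec
          set j := hex.choose with hj
          have e1 : (h.1, j) ≠ h := by
            intro e
            rw [e] at hnot
            exact hnot hh
          have e2 : (h.1, j) ≠ σ h := by
            intro e
            rw [e] at hnot
            exact hnot (hstep _ hh)
          have e3 : (σ h).1 = h.1 := (hσ h).trans h1
          have e4 : (σ (h.1, j)).1 = h.1 := (hσ _).trans h1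
          have e5 : σ (h.1, j) ∉ c.support := fun e => hnot (hback _ e)
          have e6 : σ (h.1, j) ≠ h := fun e => e5 (by rw [e]; exact hh)
          have e7 : σ (h.1, j) ≠ σ h := fun e => e5 (by rw [e]; exact hstep _ hh)
          -- four different edge-ends at one vertex
          have a1 : j ≠ h.2 := fun e => e1 (Prod.ext rfl e)
          have a2 : j ≠ (σ h).2 := fun e => e2 (Prod.ext e3.symm e)
          have a3 : (σ (h.1, j)).2 ≠ j := fun e => hsp (Prod.ext e4 e)
          have a4 : (σ (h.1, j)).2 ≠ h.2 := fun e => e6 (Prod.ext e4 e)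
          have a5 : (σ (h.1, j)).2 ≠ (σ h).2 := fun e => e7 (Prod.ext (e4.trans e3.symm) e)
          have a6 : (σ h).2 ≠ h.2 := fun e => hne (Prod.ext e3 e)
          have key : ∀ a b c d : Fin 3, a ≠ b → a ≠ c → d ≠ a → d ≠ b → d ≠ c → c ≠ b → False := by
            decide
          exact key j h.2 (σ h).2 (σ (h.1, j)).2 a1 a2 a3 a4 a5 a6
      · have hsup : h.1 ∈ π.support := Equiv.Perm.mem_support.2 h1
        have hd : π.cycleOf h.1 ∈ π.cycleFactorsFinset :=
          Equiv.Perm.cycleOf_mem_cycleFactorsFinset_iff.2 hsup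
        have hne : (π.cycleOf h.1).support.Nonempty :=
          (Equiv.Perm.mem_cycleFactorsFinset_iff.1 hd).1.nonempty_support
        have hb := hne.choose_spec
        set b := hne.choose with hbdef
        have hsc : π.SameCycle h.1 b := (Equiv.Perm.mem_support_cycleOf_iff.1 hb).1
        obtain ⟨k, hk⟩ := hsc.exists_nat_pow_eq
        refine ⟨(σ ^ k) h, ?_, hpow k⟩
        apply mem_union_left
        rw [mem_product]
        refine ⟨?_, mem_univ _⟩
        rw [pow_over hσ, hk, mem_biUnion]
        refine ⟨_, hd, ?_⟩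
        rw [dif_pos hne]
        exact mem_singleton_self _
    refine le_trans ?_ hX
    rcases σ.cycleFactorsFinset.eq_empty_or_nonempty with h0 | ⟨c0, hc0⟩
    · rw [h0]
      simp
    have : Nonempty (HE n) := ⟨(hmeet c0 hc0).choose⟩
    choose! r hr1 hr2 using hmeet
    apply card_le_card_of_injOn r
    · intro c hc
      exact hr1 c hc
    · intro c hc c' hc' e
      by_contra hne
      have h1 := Equiv.Perm.cycleFactorsFinset_pairwise_disjoint σ hc hc' hne
      rw [Equiv.Perm.disjoint_iff_disjoint_support, disjoint_left] at h1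
      exact h1 (hr2 c hc) (by rw [e]; exact hr2 c' hc')

open Classical in
/-- over `π` with touched set `T` -/
noncomputable def OT (π : Equiv.Perm (Fin n)) (T : Finset (Fin n)) : Finset (Equiv.Perm (HE n)) :=
  univ.filter (fun σ => (∀ h, (σ h).1 = π h.1) ∧ TT π σ = T)

lemma OT_card (π : Equiv.Perm (Fin n)) (T : Finset (Fin n)) :
    (OT π T).card ≤ 6 ^ (π.support.card + T.card) := by
  classical
  have hinj : ∀ σ : Equiv.Perm (HE n), (∀ h, (σ h).1 = π h.1) → ∀ v : Fin n,
      Function.Injective (fun i : Fin 3 => (σ (v, i)).2) := by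
    intro σ hσ v i j hij
    have h1 : σ (v, i) = σ (v, j) := Prod.ext (by rw [hσ, hσ]) hij
    exact congrArg Prod.snd (σ.injective h1)
  let R : Equiv.Perm (HE n) → ({v // v ∈ π.support ∪ T} → Equiv.Perm (Fin 3)) := fun σ v =>
    if h : ∀ h, (σ h).1 = π h.1 then
      Equiv.ofBijective _ (Finite.injective_iff_bijective.1 (hinj σ h v.1)) else 1
  have h1 : (OT π T).card ≤
      (univ : Finset ({v // v ∈ π.support ∪ T} → Equiv.Perm (Fin 3))).card := by
    apply card_le_card_of_injOn R
    · intro σ _
      exact mem_coe.2 (mem_univ _)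
    · intro σ hσ' ρ hρ' e
      have hσ := (mem_filter.1 (mem_coe.1 hσ')).2
      have hρ := (mem_filter.1 (mem_coe.1 hρ')).2
      ext1 h
      refine Prod.ext (by rw [hσ.1, hρ.1]) ?_
      by_cases hv : h.1 ∈ π.support ∪ T
      · have h2 := congrFun e ⟨h.1, hv⟩
        simp only [R, dif_pos hσ.1, dif_pos hρ.1] at h2
        exact congrArg (fun (q : Equiv.Perm (Fin 3)) => q h.2) h2
      · rw [mem_union, not_or] at hv
        have hfix : π h.1 = h.1 := by
          by_contra h3
          exact hv.1 (Equiv.Perm.mem_support.2 h3)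
        have e1 : σ h = h := by
          by_contra h3
          apply hv.2
          rw [← hσ.2]
          exact mem_TT.2 ⟨hfix, h.2, h3⟩
        have e2 : ρ h = h := by
          by_contra h3
          apply hv.2
          rw [← hρ.2]
          exact mem_TT.2 ⟨hfix, h.2, h3⟩
        rw [e1, e2]
  refine h1.trans ?_
  rw [card_univ, Fintype.card_fun, Fintype.card_perm, Fintype.card_fin, Fintype.card_coe]
  have h3 : (3 : ℕ).factorial = 6 := rfl
  rw [h3]
  exact Nat.pow_le_pow_right (by norm_num) (card_union_le _ _)

theorem t_WRC : S_WRC := by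
  intro n t π
  classical
  have h1 : (univ.filter (fun σ : Equiv.Perm (HE n) =>
      (∀ h, (σ h).1 = π h.1) ∧ tch π σ = t)).card ≤
      ((powersetCard t (univ : Finset (Fin n))).biUnion (fun T => OT π T)).card := by
    apply card_le_card
    intro σ hσ
    have hσ' := (mem_filter.1 hσ).2
    rw [mem_biUnion]
    refine ⟨TT π σ, ?_, ?_⟩
    · rw [mem_powersetCard]
      exact ⟨subset_univ _, by rw [← tch_eq]; exact hσ'.2⟩
    · exact mem_filter.2 ⟨mem_univ _, hσ'.1, rfl⟩
  have h2 : ((powersetCard t (univ : Finset (Fin n))).biUnion (fun T => OT π T)).card ≤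
      n.choose t * 6 ^ (π.support.card + t) := by
    refine card_biUnion_le.trans ?_
    have h3 : ∀ T ∈ powersetCard t (univ : Finset (Fin n)),
        (OT π T).card ≤ 6 ^ (π.support.card + t) := by
      intro T hT
      have := OT_card π T
      rw [(mem_powersetCard.1 hT).2] at this
      exact this
    refine (sum_le_card_nsmul _ _ _ h3).trans ?_
    rw [card_powersetCard, card_univ, Fintype.card_fin, smul_eq_mul]
  have h3 : n.choose t * t.factorial ≤ n ^ t := by
    rw [mul_comm, ← Nat.descFactorial_eq_factorial_mul_choose]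
    exact Nat.descFactorial_le_pow n t
  calc _ ≤ (n.choose t * 6 ^ (π.support.card + t)) * t.factorial :=
        Nat.mul_le_mul_right _ (h1.trans h2)
    _ = (n.choose t * t.factorial) * 6 ^ (π.support.card + t) := by ring
    _ ≤ n ^ t * 6 ^ (π.support.card + t) := Nat.mul_le_mul_right _ h3
    _ = 6 ^ π.support.card * (6 * n) ^ t := by
        rw [pow_add, mul_pow]
        ring

end Pool.Agent.K1H95.CG
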