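import Pool.Agent.K1H77.CG.Stm

/-! # CG11: one Whitehead move makes a cycle shorter and changes no longer cycle -/

set_option autoImplicit false

open Finset

namespace Pool.Agent.K1H95.CG

open Pool.Agent.K1H77.CG

variable {n k : ℕ}

lemma mem_FE {c : CD k n} {h : HE n} :
    h ∈ FE c ↔ (∃ i, (c.1 i, c.2.2 i) = h) ∨ ∃ i, (c.1 i, c.2.1 i) = h := by
  simp [FE]

lemma out_mem (c : CD k n) (i : Fin (k + 1)) : (c.1 i, c.2.2 i) ∈ FE c := mem_FE.2 (Or.inl ⟨i, rfl⟩)

lemma in_mem (c : CD k n) (i : Fin (k + 1)) : (c.1 i, c.2.1 i) ∈ FE c := mem_FE.2 (Or.inr ⟨i, rfl⟩)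

lemma M_in {M : Equiv.Perm (HE n)} (hM : IsMat M) {c : CD k n} (hc : IsCyc M c) (i : Fin (k + 1)) :
    M (c.1 (i + 1), c.2.1 (i + 1)) = (c.1 i, c.2.2 i) := by
  rw [← hc.2.2 i, hM.1]

lemma FE_closed {M : Equiv.Perm (HE n)} (hM : IsMat M) {c : CD k n} (hc : IsCyc M c) :
    ∀ h ∈ FE c, M h ∈ FE c := by
  intro h hh
  rcases mem_FE.1 hh with ⟨i, rfl⟩ | ⟨i, rfl⟩
  · rw [hc.2.2 i]
    exact in_mem c _
  · have h1 : M (c.1 (i - 1 + 1), c.2.1 (i - 1 + 1)) = (c.1 (i - 1), c.2.2 (i - 1)) := M_in hM hc _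
    rw [sub_add_cancel] at h1
    rw [h1]
    exact out_mem c _

lemma FE_card {c : CD k n} (h1 : Function.Injective c.1) (h2 : ∀ i, c.2.1 i ≠ c.2.2 i) :
    (FE c).card = 2 * (k + 1) := by
  rw [FE, card_union_of_disjoint]
  · rw [card_image_of_injective, card_image_of_injective]
    · simp
      ring
    · intro i j h
      exact h1 (congrArg Prod.fst h)
    · intro i j h
      exact h1 (congrArg Prod.fst h)
  · rw [disjoint_left]
    intro x hx hy
    simp only [mem_image, mem_univ, true_and] at hx hy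
    obtain ⟨i, rfl⟩ := hx
    obtain ⟨j, hj⟩ := hy
    have h3 : j = i := h1 (congrArg Prod.fst hj)
    subst h3
    exact h2 _ (congrArg Prod.snd hj)

lemma key (hNEW : S_NEW) {j L : ℕ} {N : Equiv.Perm (HE n)} (hN : IsMat N)
    (hD : NoDense (2 * L + 2) N) (hk : k ≤ L) (hj : j ≤ L) (A : Finset (Fin n))
    (hA : A.card = k + 1) (F : Finset (HE n)) (hF : F.card = 2 * (k + 1))
    (hcl : ∀ h ∈ F, N h ∈ F) (hFA : ∀ h ∈ F, h.1 ∈ A) (Z : CD j n) (hZ : IsCyc N Z)
    (hmeet : ∃ i, Z.1 i ∈ A) (hnot : ∃ i, (Z.1 i, Z.2.2 i) ∉ F) : False := by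
  have h1 := hNEW j n N A F Z hN hcl hFA hZ hmeet hnot
  have hUc : (A ∪ univ.image Z.1).card = A.card + (univ.image Z.1 \ A).card := by
    rw [← union_sdiff_self_eq_union, card_union_of_disjoint disjoint_sdiff]
  have hU2 : (A ∪ univ.image Z.1).card ≤ 2 * L + 2 := by
    refine (card_union_le _ _).trans ?_
    rw [card_image_of_injective _ hZ.1, hA]
    simp
    omega
  have h2 := hD _ hU2
  have h3 : (F ∪ FE Z).card ≤
      (univ.filter (fun h : HE n => h.1 ∈ A ∪ univ.image Z.1 ∧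
        (N h).1 ∈ A ∪ univ.image Z.1)).card := by
    apply card_le_card
    have h4 : ∀ h ∈ FE Z, h.1 ∈ A ∪ univ.image Z.1 := by
      intro h hh
      rw [mem_union]
      right
      rcases mem_FE.1 hh with ⟨i, rfl⟩ | ⟨i, rfl⟩ <;> exact mem_image_of_mem _ (mem_univ _)
    intro h hh
    rw [mem_filter]
    rcases mem_union.1 hh with hh | hh
    · exact ⟨mem_univ _, mem_union_left _ (hFA _ hh), mem_union_left _ (hFA _ (hcl _ hh))⟩
    · exact ⟨mem_univ _, h4 _ hh, h4 _ (FE_closed hN hZ _ hh)⟩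
  have h5 := h3.trans_lt h2
  omega

lemma third (a b : Fin 3) : ∃ r : Fin 3, r ≠ a ∧ r ≠ b := by
  revert a b
  decide

theorem t_MOVE (hNEW : S_NEW) : S_MOVE := by
  intro n M L k hM hD hk1 hkL hne
  obtain ⟨C, hC'⟩ := hne
  have hC : IsCyc M C := mem_cycs.1 hC'
  obtain ⟨r, hr1, hr2⟩ := third (C.2.1 0) (C.2.2 0)
  have h01 : (0 : Fin (k + 1)) ≠ 1 := by
    obtain ⟨k', rfl⟩ : ∃ k', k = k' + 1 := ⟨k - 1, by omega⟩
    exact Fin.zero_ne_one
  have hv : C.1 0 ≠ C.1 1 := fun h => h01 (hC.1 h)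
  set f : HE n := (C.1 0, r) with hf
  set g : HE n := (C.1 1, C.2.2 1) with hg
  set x : HE n := (C.1 0, C.2.2 0) with hx
  have hMx : M x = (C.1 1, C.2.1 1) := by
    have := hC.2.2 0
    rw [zero_add] at this
    exact this
  set τ : Equiv.Perm (HE n) := Equiv.swap f g with hτ
  have hfg : f ≠ g := fun h => hv (congrArg Prod.fst h)
  have hττ : ∀ h, τ (τ h) = h := fun h => Equiv.swap_apply_self _ _ _
  have hτf : τ f = g := Equiv.swap_apply_left _ _
  have hτg : τ g = f := Equiv.swap_apply_right _ _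
  have hτo : ∀ h : HE n, h.1 ≠ C.1 0 → h.1 ≠ C.1 1 → τ h = h := by
    intro h h1 h2
    apply Equiv.swap_apply_of_ne_of_ne
    · rintro rfl
      exact h1 rfl
    · rintro rfl
      exact h2 rfl
  -- vertices of `τ h`
  have hτU : ∀ U : Finset (Fin n), C.1 0 ∈ U → C.1 1 ∈ U → ∀ h : HE n, (τ h).1 ∈ U ↔ h.1 ∈ U := by
    intro U h0 h1 h
    by_cases e1 : h = f
    · rw [e1, hτf]
      exact ⟨fun _ => h0, fun _ => h1⟩
    · by_cases e2 : h = g
      · rw [e2, hτg]
        exact ⟨fun _ => h1, fun _ => h0⟩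
      · rw [Equiv.swap_apply_of_ne_of_ne e1 e2]
  set M' : Equiv.Perm (HE n) := τ * M * τ with hM'
  have hM'a : ∀ h, M' h = τ (M (τ h)) := fun h => rfl
  have hMat' : IsMat M' := by
    constructor
    · intro h
      rw [hM'a, hM'a, hττ, hM.1, hττ]
    · intro h e
      rw [hM'a] at e
      apply hM.2 (τ h)
      rw [← hττ (M (τ h)), e]
  set A : Finset (Fin n) := univ.image C.1 with hA
  have hAc : A.card = k + 1 := by
    rw [hA, card_image_of_injective _ hC.1]
    simp
  have h0A : C.1 0 ∈ A := mem_image_of_mem _ (mem_univ _)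
  have h1A : C.1 1 ∈ A := mem_image_of_mem _ (mem_univ _)
  have hFc := FE_card hC.1 hC.2.1
  have hFcl := FE_closed hM hC
  have hFA : ∀ h ∈ FE C, h.1 ∈ A := by
    intro h hh
    rcases mem_FE.1 hh with ⟨i, rfl⟩ | ⟨i, rfl⟩ <;> exact mem_image_of_mem _ (mem_univ _)
  -- the image of the cycle
  set F' : Finset (HE n) := (FE C).image τ with hF'
  have hF'c : F'.card = 2 * (k + 1) := by
    rw [hF', card_image_of_injective _ τ.injective, hFc]
  have hF'cl : ∀ h ∈ F', M' h ∈ F' := by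
    intro h hh
    obtain ⟨h', hh', rfl⟩ := mem_image.1 hh
    rw [hM'a, hττ]
    exact mem_image_of_mem _ (hFcl _ hh')
  have hF'A : ∀ h ∈ F', h.1 ∈ A := by
    intro h hh
    obtain ⟨h', hh', rfl⟩ := mem_image.1 hh
    rw [hτU A h0A h1A]
    exact hFA _ hh'
  have hfF : f ∉ FE C := by
    intro h
    rcases mem_FE.1 h with ⟨i, hi⟩ | ⟨i, hi⟩
    · have h2 : i = 0 := hC.1 (congrArg Prod.fst hi)
      subst h2
      exact hr2 (congrArg Prod.snd hi).symm
    · have h2 : i = 0 := hC.1 (congrArg Prod.fst hi)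
      subst h2
      exact hr1 (congrArg Prod.snd hi).symm
  have hv1 : ∀ h ∈ F', h.1 = C.1 1 → h = (C.1 1, C.2.1 1) := by
    intro h hh h1
    obtain ⟨h', hh', rfl⟩ := mem_image.1 hh
    have e1 : h' ≠ f := fun e => hfF (e ▸ hh')
    have e2 : h' ≠ g := by
      intro e
      rw [e, hτg] at h1
      exact hv h1
    have e3 : τ h' = h' := Equiv.swap_apply_of_ne_of_ne e1 e2
    rw [e3] at h1 ⊢
    rcases mem_FE.1 hh' with ⟨i, hi⟩ | ⟨i, hi⟩
    · have h2 : i = 1 := hC.1 ((congrArg Prod.fst hi).trans h1)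
      subst h2
      exact absurd hi.symm e2
    · have h2 : i = 1 := hC.1 ((congrArg Prod.fst hi).trans h1)
      subst h2
      exact hi.symm
  -- long cycles of `M` avoid `A`
  have hi : ∀ j, k < j → j ≤ L → ∀ Z : CD j n, IsCyc M Z → ∀ i, Z.1 i ∉ A := by
    intro j hkj hjL Z hZ i hiA
    by_cases hall : ∀ i, (Z.1 i, Z.2.2 i) ∈ FE C
    · have h2 : (univ.image Z.1).card ≤ A.card := by
        apply card_le_card
        intro v hv'
        obtain ⟨i', _, rfl⟩ := mem_image.1 hv'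
        exact hFA _ (hall i')
      rw [card_image_of_injective _ hZ.1, hAc] at h2
      simp at h2
      omega
    · simp only [not_forall] at hall
      exact key hNEW hM hD hkL hjL A hAc (FE C) hFc hFcl hFA Z hZ ⟨i, hiA⟩ hall
  -- long cycles of `M'` avoid `A`
  have hii : ∀ j, k ≤ j → j ≤ L → ∀ Z : CD j n, IsCyc M' Z → ∀ i, Z.1 i ∉ A := by
    intro j hkj hjL Z hZ i hiA
    by_cases hall : ∀ i, (Z.1 i, Z.2.2 i) ∈ F'
    · have hin : ∀ i, (Z.1 i, Z.2.1 i) ∈ F' := by
        intro i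
        have h2 := hF'cl _ (hall (i - 1))
        rw [hZ.2.2, sub_add_cancel] at h2
        exact h2
      have hne1 : ∀ i, Z.1 i ≠ C.1 1 := by
        intro i hi1
        have h2 := hv1 _ (hall i) hi1
        have h3 := hv1 _ (hin i) hi1
        exact hZ.2.1 i (congrArg Prod.snd (h3.trans h2.symm))
      have h2 : (univ.image Z.1).card ≤ (A.erase (C.1 1)).card := by
        apply card_le_card
        intro v hv'
        obtain ⟨i', _, rfl⟩ := mem_image.1 hv'
        exact mem_erase.2 ⟨hne1 i', hF'A _ (hall i')⟩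
      rw [card_image_of_injective _ hZ.1, card_erase_of_mem h1A, hAc] at h2
      simp at h2
      omega
    · simp only [not_forall] at hall
      have h1 := hNEW j n M' A F' Z hMat' hF'cl hF'A hZ ⟨i, hiA⟩ hall
      have hUc : (A ∪ univ.image Z.1).card = A.card + (univ.image Z.1 \ A).card := by
        rw [← union_sdiff_self_eq_union, card_union_of_disjoint disjoint_sdiff]
      have hU2 : (A ∪ univ.image Z.1).card ≤ 2 * L + 2 := by
        refine (card_union_le _ _).trans ?_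
        rw [card_image_of_injective _ hZ.1, hAc]
        simp
        omega
      have h2 := hD _ hU2
      have h0U : C.1 0 ∈ A ∪ univ.image Z.1 := mem_union_left _ h0A
      have h1U : C.1 1 ∈ A ∪ univ.image Z.1 := mem_union_left _ h1A
      have h3 : ((F' ∪ FE Z).image τ).card ≤
          (univ.filter (fun h : HE n => h.1 ∈ A ∪ univ.image Z.1 ∧
            (M h).1 ∈ A ∪ univ.image Z.1)).card := by
        apply card_le_card
        have h4 : ∀ h ∈ FE Z, h.1 ∈ A ∪ univ.image Z.1 := by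
          intro h hh
          rw [mem_union]
          right
          rcases mem_FE.1 hh with ⟨i, rfl⟩ | ⟨i, rfl⟩ <;> exact mem_image_of_mem _ (mem_univ _)
        have h5 : ∀ h ∈ F' ∪ FE Z, h.1 ∈ A ∪ univ.image Z.1 ∧
            (M' h).1 ∈ A ∪ univ.image Z.1 := by
          intro h hh
          rcases mem_union.1 hh with hh | hh
          · exact ⟨mem_union_left _ (hF'A _ hh), mem_union_left _ (hF'A _ (hF'cl _ hh))⟩
          · exact ⟨h4 _ hh, h4 _ (FE_closed hMat' hZ _ hh)⟩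
        intro h hh
        obtain ⟨h', hh', rfl⟩ := mem_image.1 hh
        have h6 := h5 _ hh'
        rw [mem_filter]
        refine ⟨mem_univ _, (hτU _ h0U h1U h').2 h6.1, ?_⟩
        have h7 := h6.2
        rw [hM'a, hτU _ h0U h1U] at h7
        exact h7
      rw [card_image_of_injective _ τ.injective] at h3
      have h5 := h3.trans_lt h2
      omega
  -- cycles which avoid `A`
  have hiii : ∀ j (Z : CD j n), (∀ i, Z.1 i ∉ A) → (IsCyc M Z ↔ IsCyc M' Z) := by
    intro j Z hZ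
    have ho : ∀ i (t : Fin 3), τ (Z.1 i, t) = (Z.1 i, t) := by
      intro i t
      apply hτo
      · intro e
        have e' : Z.1 i = C.1 0 := e
        exact hZ i (by rw [e']; exact h0A)
      · intro e
        have e' : Z.1 i = C.1 1 := e
        exact hZ i (by rw [e']; exact h1A)
    constructor
    · rintro ⟨h1, h2, h3⟩
      refine ⟨h1, h2, fun i => ?_⟩
      rw [hM'a, ho, h3, ho]
    · rintro ⟨h1, h2, h3⟩
      refine ⟨h1, h2, fun i => ?_⟩
      have h4 := h3 i
      rw [hM'a, ho] at h4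
      rw [← hττ (M (Z.1 i, Z.2.2 i)), h4, ho]
  refine ⟨M', ⟨x, f, g, ?_, rfl, ?_, ?_, ?_, rfl⟩, ?_, ?_⟩
  · rw [hMx]
    exact hv
  · intro e
    exact hr2 (congrArg Prod.snd e)
  · rw [hMx]
  · rw [hMx]
    intro e
    exact hC.2.1 1 (congrArg Prod.snd e).symm
  · intro j hkj hjL
    have h1 : cycs j M' = cycs j M := by
      ext Z
      rw [mem_cycs, mem_cycs]
      constructor
      · intro h
        exact (hiii j Z (hii j hkj.le hjL Z h)).2 h
      · intro h
        exact (hiii j Z (hi j hkj hjL Z h)).1 h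
    rw [h1]
  · apply card_lt_card
    rw [ssubset_iff_of_subset]
    · refine ⟨C, hC', fun h => ?_⟩
      exact hii k le_rfl hkL C (mem_cycs.1 h) 0 h0A
    · intro Z hZ
      rw [mem_cycs] at hZ ⊢
      exact (hiii k Z (hii k le_rfl hkL Z hZ)).2 hZ

end Pool.Agent.K1H95.CG
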